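import Pool.Agent.L7h17.TR.Stm

/-!
# Project TR, part TRF (change of coordinates of the ovals)
-/

set_option autoImplicit false

open MvPolynomial Pool.Agent.L7h17

namespace Pool.Agent.L7h84.TR

theorem s_TRF : Pool.Agent.L7h17.TR.S_TRF := by
  intro k F M D hM hD hev
  obtain ⟨h1, h2, h3, h4, h5, h6⟩ := hD
  obtain ⟨U, rfl⟩ := hM
  have hNM : ∀ w : Fin 3 → ℝ,
      ((U⁻¹ : (Matrix (Fin 3) (Fin 3) ℝ)ˣ) : Matrix (Fin 3) (Fin 3) ℝ).mulVec
        ((U : Matrix (Fin 3) (Fin 3) ℝ).mulVec w) = w := by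
    intro w
    rw [Matrix.mulVec_mulVec, Units.inv_mul, Matrix.one_mulVec]
  have hMN : ∀ w : Fin 3 → ℝ,
      (U : Matrix (Fin 3) (Fin 3) ℝ).mulVec
        (((U⁻¹ : (Matrix (Fin 3) (Fin 3) ℝ)ˣ) : Matrix (Fin 3) (Fin 3) ℝ).mulVec w) = w := by
    intro w
    rw [Matrix.mulVec_mulVec, Units.mul_inv, Matrix.one_mulVec]
  have hc : ∀ A : Matrix (Fin 3) (Fin 3) ℝ, Continuous fun w : Fin 3 → ℝ => A.mulVec w :=
    fun A => Continuous.matrix_mulVec continuous_const continuous_id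
  have hne : ∀ w : Fin 3 → ℝ, (U : Matrix (Fin 3) (Fin 3) ℝ).mulVec w ≠ 0 ↔ w ≠ 0 := by
    intro w
    constructor
    · rintro h rfl
      exact h (Matrix.mulVec_zero _)
    · intro h h0
      apply h
      rw [← hNM w, h0, Matrix.mulVec_zero]
  refine ⟨?_, ?_, ?_, ?_, ?_, ?_⟩
  · intro i
    have e : {w | (U : Matrix (Fin 3) (Fin 3) ℝ).mulVec w ∈ D i} =
        (fun w => ((U⁻¹ : (Matrix (Fin 3) (Fin 3) ℝ)ˣ) : Matrix (Fin 3) (Fin 3) ℝ).mulVec w) ''
          D i := by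
      ext w
      constructor
      · intro hw
        exact ⟨_, hw, hNM w⟩
      · rintro ⟨v, hv, rfl⟩
        change (U : Matrix (Fin 3) (Fin 3) ℝ).mulVec _ ∈ D i
        rw [hMN]
        exact hv
    change IsConnected {w | (U : Matrix (Fin 3) (Fin 3) ℝ).mulVec w ∈ D i}
    rw [e]
    exact (h1 i).image _ (hc _).continuousOn
  · intro i
    obtain ⟨K, hK, hKD⟩ := h2 i
    refine ⟨(fun w => (U : Matrix (Fin 3) (Fin 3) ℝ).mulVec w) ⁻¹' K, hK.preimage (hc _), ?_⟩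
    ext w
    constructor
    · intro hw
      have hw' : (U : Matrix (Fin 3) (Fin 3) ℝ).mulVec w ∈ D i := hw
      rw [hKD] at hw'
      exact ⟨hw'.1, (hne w).1 hw'.2⟩
    · rintro ⟨hw1, hw2⟩
      change (U : Matrix (Fin 3) (Fin 3) ℝ).mulVec w ∈ D i
      rw [hKD]
      exact ⟨hw1, (hne w).2 hw2⟩
  · intro i v hv c hc0
    change (U : Matrix (Fin 3) (Fin 3) ℝ).mulVec (c • v) ∈ D i
    rw [Matrix.mulVec_smul]
    exact h3 i _ hv c hc0
  · intro i j hij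
    exact (h4 i j hij).preimage (fun w => (U : Matrix (Fin 3) (Fin 3) ℝ).mulVec w)
  · intro i j v hv hv'
    have hv'' : (U : Matrix (Fin 3) (Fin 3) ℝ).mulVec (-v) ∈ D j := hv'
    rw [Matrix.mulVec_neg] at hv''
    exact h5 i j _ hv hv''
  · intro v
    have e1 : v ∈ OC.realCone (OC.change (U : Matrix (Fin 3) (Fin 3) ℝ) F) ↔
        (U : Matrix (Fin 3) (Fin 3) ℝ).mulVec v ∈ OC.realCone F := by
      unfold OC.realCone
      simp only [Set.mem_ofPred_eq]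
      rw [hev v, hne v]
    rw [e1, h6]
    constructor
    · rintro ⟨i, hi | hi⟩
      · exact ⟨i, Or.inl hi⟩
      · refine ⟨i, Or.inr ?_⟩
        change (U : Matrix (Fin 3) (Fin 3) ℝ).mulVec (-v) ∈ D i
        rw [Matrix.mulVec_neg]
        exact hi
    · rintro ⟨i, hi | hi⟩
      · exact ⟨i, Or.inl hi⟩
      · refine ⟨i, Or.inr ?_⟩
        have hi' : (U : Matrix (Fin 3) (Fin 3) ℝ).mulVec (-v) ∈ D i := hi
        rw [Matrix.mulVec_neg] at hi'
        exact hi'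

end Pool.Agent.L7h84.TR
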